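import Pool.Agent.Lib.MP_2e793b_nt.Iface

/-!
Module ROOTS (helper65): the number of roots of `m x² + h` modulo `d`.
-/

set_option autoImplicit false

namespace Pool.Agent.Lib.MP_2e793b_nt.H65

open Finset
open scoped Classical

/-- If `a ∣ c z` then `a / gcd(a, c) ∣ z`. -/
theorem div_gcd_dvd {a : ℕ} (ha : 1 ≤ a) {c z : ℤ} (h : (a : ℤ) ∣ c * z) :
    ((a / Nat.gcd a c.natAbs : ℕ) : ℤ) ∣ z := by
  have h1 : a ∣ c.natAbs * z.natAbs := by
    rw [← Int.natAbs_mul]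
    exact Int.natCast_dvd.mp h
  have hg : 0 < Nat.gcd a c.natAbs := Nat.gcd_pos_of_pos_left _ ha
  rw [Int.natCast_dvd]
  have h2 : Nat.Coprime (a / Nat.gcd a c.natAbs) (c.natAbs / Nat.gcd a c.natAbs) :=
    Nat.coprime_div_gcd_div_gcd hg
  refine h2.dvd_of_dvd_mul_left ?_
  have e1 : Nat.gcd a c.natAbs * (a / Nat.gcd a c.natAbs) = a :=
    Nat.mul_div_cancel' (Nat.gcd_dvd_left _ _)
  have e2 : Nat.gcd a c.natAbs * (c.natAbs / Nat.gcd a c.natAbs) = c.natAbs :=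
    Nat.mul_div_cancel' (Nat.gcd_dvd_right _ _)
  have h3 : Nat.gcd a c.natAbs * (a / Nat.gcd a c.natAbs) ∣
      Nat.gcd a c.natAbs * ((c.natAbs / Nat.gcd a c.natAbs) * z.natAbs) := by
    rw [e1, ← mul_assoc, e2]
    exact h1
  exact Nat.dvd_of_mul_dvd_mul_left hg h3

/-- The number of naturals below `d` in one class modulo `L ∣ d`. -/
theorem card_class {d L : ℕ} (hd : 1 ≤ d) (hL : L ∣ d) (T : Finset ℕ)
    (hT : ∀ x ∈ T, x < d) (hc : ∀ x ∈ T, ∀ y ∈ T, (L : ℤ) ∣ (x : ℤ) - y) :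
    T.card ≤ d / L := by
  have hL0 : 0 < L := Nat.pos_of_dvd_of_pos hL hd
  have h1 : T.card ≤ (range (d / L)).card := by
    refine Finset.card_le_card_of_injOn (fun x => x / L) ?_ ?_
    · intro x hx
      have hx' := hT x (by exact_mod_cast hx)
      simp only [coe_range, Set.mem_Iio]
      rw [Nat.div_lt_iff_lt_mul hL0, Nat.div_mul_cancel hL]
      exact hx'
    · intro x hx y hy hxy
      have hx1 := hc x (by exact_mod_cast hx) y (by exact_mod_cast hy)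
      have hmod : (y : ℤ) ≡ x [ZMOD L] := Int.modEq_iff_dvd.mpr hx1
      have hmod' : y ≡ x [MOD L] := (Int.natCast_modEq_iff).mp hmod
      have hxy' : x / L = y / L := hxy
      have e1 := Nat.div_add_mod x L
      have e2 := Nat.div_add_mod y L
      rw [hxy'] at e1
      have e3 : y % L = x % L := hmod'
      omega
  simpa using h1

theorem roots : RootsStmt := by
  intro m d h hm hd hh
  set S := (range d).filter (fun x : ℕ => (d : ℤ) ∣ m * (x : ℤ) ^ 2 + h) with hS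
  have hmem : ∀ x ∈ S, x < d ∧ (d : ℤ) ∣ m * (x : ℤ) ^ 2 + h := by
    intro x hx
    rw [hS, mem_filter, mem_range] at hx
    exact hx
  rcases S.eq_empty_or_nonempty with he | ⟨x₀, hx₀⟩
  · rw [he]; simp
  obtain ⟨hx₀d, hx₀r⟩ := hmem x₀ hx₀
  have hmaps : ∀ x ∈ S, Int.gcd (d : ℤ) ((x : ℤ) - x₀) ∈ d.divisors := by
    intro x _
    rw [Nat.mem_divisors]
    refine ⟨?_, by omega⟩
    have := Int.gcd_dvd_left (a := (d : ℤ)) (b := (x : ℤ) - x₀)
    exact_mod_cast this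
  have hkey := Finset.card_le_mul_card_image_of_maps_to (f := fun x : ℕ => Int.gcd (d : ℤ) ((x : ℤ) - x₀))
    (s := S) (t := d.divisors) hmaps (4 * m * h.natAbs) ?_
  · exact hkey
  intro b hb
  rw [Nat.mem_divisors] at hb
  obtain ⟨hbd, -⟩ := hb
  have hb0 : 0 < b := Nat.pos_of_dvd_of_pos hbd hd
  obtain ⟨e, he⟩ := hbd
  have he0 : 1 ≤ e := by
    rcases Nat.eq_zero_or_pos e with h0 | h0
    · subst h0; omega
    · exact h0
  set g := Nat.gcd e m with hg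
  have hg0 : 0 < g := Nat.gcd_pos_of_pos_left _ he0
  obtain ⟨e1, he1⟩ : g ∣ e := Nat.gcd_dvd_left _ _
  have hgm : g ≤ m := Nat.le_of_dvd hm (Nat.gcd_dvd_right _ _)
  have he10 : 1 ≤ e1 := by
    rcases Nat.eq_zero_or_pos e1 with h0 | h0
    · subst h0; omega
    · exact h0
  -- for x in the fibre: b ∣ x - x₀ and e1 ∣ x + x₀
  have hfib : ∀ x ∈ S.filter (fun x : ℕ => Int.gcd (d : ℤ) ((x : ℤ) - x₀) = b),
      x < d ∧ (b : ℤ) ∣ (x : ℤ) - x₀ ∧ (e1 : ℤ) ∣ (x : ℤ) + x₀ := by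
    intro x hx
    rw [mem_filter] at hx
    obtain ⟨hxS, hxb⟩ := hx
    obtain ⟨hxd, hxr⟩ := hmem x hxS
    have hbx : (b : ℤ) ∣ (x : ℤ) - x₀ := by
      rw [← hxb]; exact Int.gcd_dvd_right _ _
    refine ⟨hxd, hbx, ?_⟩
    have h1 : (d : ℤ) ∣ ((m : ℤ) * (x + x₀)) * ((x : ℤ) - x₀) := by
      have := dvd_sub hxr hx₀r
      have e2 : ((m : ℤ) * (x : ℤ) ^ 2 + h) - (m * (x₀ : ℤ) ^ 2 + h) =
          ((m : ℤ) * (x + x₀)) * ((x : ℤ) - x₀) := by ring
      rwa [e2] at this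
    have h2 : (d : ℤ) ∣ ((x : ℤ) - x₀) * ((m : ℤ) * (x + x₀)) := by rwa [mul_comm]
    have h3 := div_gcd_dvd hd h2
    have h4 : Nat.gcd d ((x : ℤ) - x₀).natAbs = b := by
      rw [← hxb]; rfl
    rw [h4] at h3
    have h5 : d / b = e := by rw [he]; exact Nat.mul_div_cancel_left _ hb0
    rw [h5] at h3
    have h6 := div_gcd_dvd he0 h3
    rw [Int.natAbs_natCast, ← hg] at h6
    have h7 : e / g = e1 := by
      conv_lhs => rw [he1]
      exact Nat.mul_div_cancel_left _ hg0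
    rw [h7] at h6
    exact h6
  set T := S.filter (fun x : ℕ => Int.gcd (d : ℤ) ((x : ℤ) - x₀) = b) with hT
  rcases T.eq_empty_or_nonempty with hTe | ⟨y, hy⟩
  · rw [hTe]; simp
  obtain ⟨hyd, hyb, hye⟩ := hfib y hy
  -- the class modulo lcm b e1
  have hLd : Nat.lcm b e1 ∣ d := by
    refine Nat.lcm_dvd ⟨e, he⟩ ?_
    exact ⟨b * g, by rw [he, he1]; ring⟩
  have hcard := card_class hd hLd T (fun x hx => (hfib x hx).1) (by
    intro x hx z hz
    obtain ⟨-, hxb, hxe⟩ := hfib x hx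
    obtain ⟨-, hzb, hze⟩ := hfib z hz
    have k1 : (b : ℤ) ∣ (x : ℤ) - z := by
      have := dvd_sub hxb hzb
      have e2 : ((x : ℤ) - x₀) - ((z : ℤ) - x₀) = (x : ℤ) - z := by ring
      rwa [e2] at this
    have k2 : (e1 : ℤ) ∣ (x : ℤ) - z := by
      have := dvd_sub hxe hze
      have e2 : ((x : ℤ) + x₀) - ((z : ℤ) + x₀) = (x : ℤ) - z := by ring
      rwa [e2] at this
    rw [Int.natCast_dvd] at k1 k2 ⊢
    exact Nat.lcm_dvd k1 k2)
  -- d / lcm = gcd b e1 * g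
  have hdl : d / Nat.lcm b e1 = Nat.gcd b e1 * g := by
    have h1 : Nat.gcd b e1 * Nat.lcm b e1 = b * e1 := Nat.gcd_mul_lcm b e1
    have hl0 : 0 < Nat.lcm b e1 := Nat.pos_of_dvd_of_pos hLd hd
    refine Nat.div_eq_of_eq_mul_left hl0 ?_
    calc d = b * (g * e1) := by rw [he, he1]
      _ = (b * e1) * g := by ring
      _ = (Nat.gcd b e1 * Nat.lcm b e1) * g := by rw [h1]
      _ = Nat.gcd b e1 * g * Nat.lcm b e1 := by ring
  -- gcd b e1 divides 4 h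
  have hgh : Nat.gcd b e1 ∣ (4 * h).natAbs := by
    rw [← Int.natCast_dvd]
    have k1 : ((Nat.gcd b e1 : ℕ) : ℤ) ∣ 2 * (x₀ : ℤ) := by
      have a1 : ((Nat.gcd b e1 : ℕ) : ℤ) ∣ (y : ℤ) - x₀ :=
        (Int.natCast_dvd_natCast.mpr (Nat.gcd_dvd_left b e1)).trans hyb
      have a2 : ((Nat.gcd b e1 : ℕ) : ℤ) ∣ (y : ℤ) + x₀ :=
        (Int.natCast_dvd_natCast.mpr (Nat.gcd_dvd_right b e1)).trans hye
      have := dvd_sub a2 a1
      have e2 : ((y : ℤ) + x₀) - ((y : ℤ) - x₀) = 2 * (x₀ : ℤ) := by ring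
      rwa [e2] at this
    have k2 : ((Nat.gcd b e1 : ℕ) : ℤ) ∣ m * (x₀ : ℤ) ^ 2 + h := by
      refine (Int.natCast_dvd_natCast.mpr ?_).trans hx₀r
      exact (Nat.gcd_dvd_left b e1).trans ⟨e, he⟩
    have e3 : 4 * h = 4 * (m * (x₀ : ℤ) ^ 2 + h) - (2 * (x₀ : ℤ)) * (m * (2 * (x₀ : ℤ))) := by ring
    rw [e3]
    exact dvd_sub (k2.mul_left 4) (k1.mul_right _)
  have hgle : Nat.gcd b e1 ≤ 4 * h.natAbs := by
    have h1 : 0 < (4 * h).natAbs := Int.natAbs_pos.mpr (by omega)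
    have h2 := Nat.le_of_dvd h1 hgh
    rw [Int.natAbs_mul] at h2
    simpa using h2
  calc T.card ≤ d / Nat.lcm b e1 := hcard
    _ = Nat.gcd b e1 * g := hdl
    _ ≤ (4 * h.natAbs) * m := Nat.mul_le_mul hgle hgm
    _ = 4 * m * h.natAbs := by ring

end Pool.Agent.Lib.MP_2e793b_nt.H65
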